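import Pool.Statements.S01642
-- import your own Pool.Agent.* helpers here
import Pool.Agent.Lib.helper16.EngB

set_option autoImplicit false
open Pool Pool.MP_5f1296_al

namespace Pool.Agent.Lib.helper16.KnownS01642

open Pool.Agent.Lib.helper16.EngA Ordinal

noncomputable def I (α : Ordinal.{0}) : Ideal R := Ideal.span (e '' {i | (i : Ordinal.{0}) < α})

open Classical in
noncomputable def S (α : Ordinal.{0}) : Subgroup G :=
  if α ≤ ω then Kr (Ideal.Quotient.mk (I α)) else ⊤

lemma I_mono : Monotone I := fun _ _ h =>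
  Ideal.span_mono (Set.image_mono fun _ hi => lt_of_lt_of_le hi h)

lemma I_omega : I ω = Ideal.span (Set.range e) := by
  simp [I, natCast_lt_omega0]

lemma I_sq (n : ℕ) : I (n + 1) * I (n + 1) ≤ I n := by
  rw [I, Ideal.span_mul_span', Ideal.span_le]
  rintro _ ⟨_, ⟨i, hi, rfl⟩, _, ⟨j, hj, rfl⟩, rfl⟩
  have hi : i < n + 1 := by exact_mod_cast hi
  have hj : j < n + 1 := by exact_mod_cast hj
  show e i * e j ∈ I n
  by_cases a : i < n
  · exact Ideal.mul_mem_right _ _ (Ideal.subset_span ⟨i, by exact_mod_cast a, rfl⟩)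
  by_cases b : j < n
  · exact Ideal.mul_mem_left _ _ (Ideal.subset_span ⟨j, by exact_mod_cast b, rfl⟩)
  rw [show i = j by omega, ee]
  exact zero_mem _

lemma I_ex {r : R} (h : r ∈ I ω) : ∃ n : ℕ, r ∈ I n := by
  rw [I_omega] at h
  induction h using Submodule.span_induction with
  | mem x hx =>
    obtain ⟨i, rfl⟩ := hx
    exact ⟨i + 1, Ideal.subset_span ⟨i, by simp, rfl⟩⟩
  | zero => exact ⟨0, zero_mem _⟩
  | add x y _ _ hx hy =>
    obtain ⟨a, ha⟩ := hx
    obtain ⟨b, hb⟩ := hy
    exact ⟨a + b, add_mem (I_mono (by exact_mod_cast Nat.le_add_right a b) ha)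
      (I_mono (by exact_mod_cast Nat.le_add_left b a) hb)⟩
  | smul a x _ hx => exact hx.imp fun n hn => Ideal.mul_mem_left _ _ hn

lemma S_mono : Monotone S := by
  intro a b h
  by_cases hb : b ≤ ω
  · simp only [S, hb, h.trans hb, if_true]
    exact fun g hg => mem_Kr.2 fun i j => I_mono h (mem_Kr.1 hg i j)
  · simp [S, hb]

instance (α : Ordinal.{0}) : (S α).Normal := by
  unfold S
  split_ifs <;> infer_instance


/-- The negation of the preceding statement: In every group with an ascending series with abelian factors, an element is right n-Engel for some n iff for some n ≥ 1 every cyclic subgroup ⟨x⟩ is subnormal of defect ≤ n in ⟨x⟩ times the normal closure of that element. -/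
theorem result :
    ¬ (∀ (G : Type) [Group G],
      (∃ (β : Ordinal.{0}) (S : Ordinal.{0} → Subgroup G),
        S 0 = ⊥ ∧ S β = ⊤ ∧
        (∀ α < β, S α ≤ S (Order.succ α) ∧
          (∀ g ∈ S (Order.succ α), ∀ h ∈ S α, g * h * g⁻¹ ∈ S α) ∧
          (∀ x ∈ S (Order.succ α), ∀ y ∈ S (Order.succ α), x * y * x⁻¹ * y⁻¹ ∈ S α)) ∧
        (∀ l ≤ β, Order.IsSuccLimit l → S l = ⨆ (α : Ordinal.{0}) (_ : α < l), S α)) →
      ∀ a : G,
        (∃ n : ℕ, ∀ x : G, (fun y : G => y⁻¹ * x⁻¹ * y * x)^[n] a = 1) ↔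
        (∃ n : ℕ, 1 ≤ n ∧ ∀ x : G, ∃ H : ℕ → Subgroup G,
           H 0 = Subgroup.zpowers x ∧
           H n = Subgroup.zpowers x ⊔ Subgroup.normalClosure {a} ∧
           ∀ i < n, H i ≤ H (i + 1) ∧ ∀ g ∈ H (i + 1), ∀ h ∈ H i, g * h * g⁻¹ ∈ H i)) := by
  intro H
  refine absurd ((H G ⟨Order.succ ω, S, ?_, by simp [S], fun α hα => ⟨S_mono (Order.le_succ _),
    fun g _ h hh => Subgroup.Normal.conj_mem inferInstance h hh g, ?_⟩, ?_⟩ x).1
    ⟨111, engel x⟩) ?_
  rotate_right
  · rintro ⟨n, -, h⟩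
    obtain ⟨K, h0, hn, hK⟩ := h x
    have hx : x ∈ Subgroup.normalClosure {x} := Subgroup.subset_normalClosure rfl
    rw [sup_eq_right.2 (by simpa using hx)] at hn
    exact not_subnormal (map_X0 _) n K h0 (hn ▸ W_norm hx) hK
  · rw [eq_bot_iff]
    intro g hg
    simp only [S, zero_le, if_true, mem_Kr] at hg
    exact Subtype.ext (Units.ext (sub_eq_zero.1 (Matrix.ext fun i j => by simpa [I] using hg i j)))
  · rcases (Order.lt_succ_iff.1 hα).eq_or_lt with rfl | h
    · intro a _ b _
      simp only [S, le_refl, if_true, mem_Kr, I_omega]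
      exact mem_Kr.1 (top_comm a b)
    · obtain ⟨n, rfl⟩ := lt_omega0.1 h
      have h2 : Order.succ (n : Ordinal.{0}) ≤ ω := Order.succ_le_of_lt h
      intro a ha b hb
      simp only [S, h.le, h2, if_true] at ha hb ⊢
      exact Kr_comm (I_sq n) ha hb
  · intro l hl hl2
    have e : l = ω := le_antisymm (Order.le_of_lt_succ (hl.lt_of_ne (by
      rintro rfl; exact Order.not_isSuccLimit_succ _ hl2))) (omega0_le_of_isSuccLimit hl2)
    subst e
    refine le_antisymm (fun g hg => ?_) (iSup₂_le fun a ha => S_mono ha.le)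
    simp only [S, le_refl, if_true, mem_Kr] at hg
    choose f hf using fun p : Fin 3 × Fin 3 => I_ex (hg p.1 p.2)
    have hN := natCast_lt_omega0 (Finset.univ.sup f)
    refine le_iSup₂_of_le (f := fun α (_ : α < ω) => S α) _ hN le_rfl ?_
    simp only [S, hN.le, if_true, mem_Kr]
    exact fun i j => I_mono (by exact_mod_cast Finset.le_sup (Finset.mem_univ (i, j))) (hf (i, j))

end Pool.Agent.Lib.helper16.KnownS01642
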