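import Pool.Statements.S02766
-- import your own Pool.Agent.* helpers here
import Pool.Agent.Lib.helper16.EngB

set_option autoImplicit false
open Pool Pool.MP_b39e30_al

namespace Pool.Agent.Lib.helper16.KnownS02766

open Pool.Agent.Lib.helper16.EngA


/-- The negation of the preceding statement: In every radical group (ascending series with locally nilpotent factors), an element is a bounded left Engel element exactly when it lies in the subgroup generated by all elements generating subnormal cyclic subgroups, i.e. the Baer radical. -/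
theorem result :
    ¬ (∀ (G : Type) [Group G],
      (∃ S : Ordinal.{0} → Subgroup G,
        Monotone S ∧
        (∀ α : Ordinal.{0}, ∀ g : G, g ∈ S α →
          g = 1 ∨ ∃ β : Ordinal.{0}, β < α ∧ g ∈ S (Order.succ β)) ∧
        (∀ α : Ordinal.{0}, ∀ a : G, a ∈ S (Order.succ α) →
          ∀ b : G, b ∈ S α → a * b * a⁻¹ ∈ S α) ∧
        (∀ α : Ordinal.{0}, ∀ F : Set G, F.Finite →
          F ⊆ (S (Order.succ α) : Set G) →
          ∃ n : ℕ, ∀ h0 : G, h0 ∈ Subgroup.closure F →
            ∀ hs : List G, hs.length = n →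
              (∀ b : G, b ∈ hs → b ∈ Subgroup.closure F) →
                hs.foldl (fun a b : G => a⁻¹ * b⁻¹ * a * b) h0 ∈ S α) ∧
        (∃ β : Ordinal.{0}, S β = ⊤)) →
      ∀ x : G,
        (∃ n : ℕ, ∀ g : G, (fun y : G => y⁻¹ * x⁻¹ * y * x)^[n] g = 1) ↔
          x ∈ Subgroup.closure
            {y : G | ∃ n : ℕ, ∃ K : ℕ → Subgroup G,
              K 0 = Subgroup.zpowers y ∧ K n = ⊤ ∧
              ∀ i : ℕ, i < n → (K i ≤ K (i + 1) ∧
                ∀ a : G, a ∈ K (i + 1) → ∀ b : G, b ∈ K i → a * b * a⁻¹ ∈ K i)}) := by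
  classical
  intro H
  refine x_not_baer ((H G ⟨fun α => if α = 0 then ⊥ else ⊤, ?_, ?_, ?_, ?_, 1, by simp⟩ x).1
    ⟨111, fun g => engel g x⟩)
  · intro a b h
    by_cases ha : a = 0
    · simp [ha]
    · have : b ≠ 0 := fun e => ha (le_antisymm (e ▸ h) zero_le)
      simp [this]
  · intro a g hg
    by_cases ha : a = 0
    · exact Or.inl (by simpa [ha] using hg)
    · exact Or.inr ⟨0, pos_iff_ne_zero.2 ha, by simp⟩
  · intro a u _ v hv
    by_cases ha : a = 0
    · simp only [ha, if_true, Subgroup.mem_bot] at hv ⊢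
      simp [hv]
    · simp [ha]
  · intro a F hF _
    lift F to Finset G using hF
    refine ⟨3 * (2 * (F.card * 9) + 1), fun g hg hs hl hh => ?_⟩
    rw [nilp F g hg hs hl.ge hh]
    exact one_mem _

end Pool.Agent.Lib.helper16.KnownS02766
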